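import Pool.Agent.H26R2.Bass.Main

/-!
The Bass trace conjecture for groups with a good normal series, over arbitrary domains.
-/

set_option autoImplicit false

namespace Pool.Agent.Results.MP_7903c7_al.GoodSeriesGroups

open Pool.Agent.H26R2.Bass (BassFor Admissible)

universe u v

/-- Let `R` be a commutative domain and `G` a group such that `G` is admissible for `R`, or all
finitely generated subgroups of `G` are. Then the Bass trace conjecture holds for `R` and `G`.
Here `G` is admissible if it has a normal subgroup `N` with a finite series of normal subgroups of
`G` whose factors are good (periodic; or with finite conjugacy classes; or detected by additive
homomorphisms of centralisers; or without infinite chains of `p`-th roots for a prime `p` that is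
not a unit in `R`; or, in characteristic zero, abelian of finite rank or without chains of roots),
and such that every element of a finitely generated subgroup `H` without powers in `N` has a good
image in some quotient of `H`. -/
theorem result (R : Type u) [CommRing R] [IsDomain R] (G : Type v) [Group G]
    (hG : Admissible R G ∨ ∀ H : Subgroup G, H.FG → Admissible R H) : BassFor R G :=
  fun _ A hA g hg => Pool.Agent.H26R2.Bass.bass_main hG A hA g hg

end Pool.Agent.Results.MP_7903c7_al.GoodSeriesGroups
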